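import Pool.Agent.X305.LT.Main

/-!
# A sublinear bound for the weights of the invariants
-/

set_option autoImplicit false

namespace Pool.Agent.X305.LT

open Module Pool.Agent.X268.WM Pool.Agent.X268.KC Pool.Agent.X268.EV
open scoped TensorProduct

universe u

variable {Ω : Type} [Field Ω] {q : ℕ}

/-- The product of two invariants. -/
theorem prod_invariant (hq : (q : Ω) ≠ 0) {W W' U : FN.{u} Ω q} (h : IsTensorSummand W W' U) {a b : ℤ}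
    {y : W.V} (hy : y ≠ 0) (hyF : W.F y = (q : Ω) ^ a • y) (hyN : W.N y = 0) {z : W'.V} (hz : z ≠ 0)
    (hzF : W'.F z = (q : Ω) ^ b • z) (hzN : W'.N z = 0) :
    ∃ u : U.V, u ≠ 0 ∧ U.F u = (q : Ω) ^ (a + b) • u ∧ U.N u = 0 := by
  obtain ⟨i, p, hpi, hiF, hiN, -, -⟩ := h
  refine ⟨i (y ⊗ₜ[Ω] z), ?_, ?_, ?_⟩
  · intro h0
    have h1 : y ⊗ₜ[Ω] z = 0 := by rw [← hpi (y ⊗ₜ[Ω] z), h0, map_zero]
    exact hy (tmul_eq_zero' hz h1)
  · rw [← hiF, F2_tmul, hyF, hzF, ← TensorProduct.smul_tmul', TensorProduct.tmul_smul, smul_smul,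
      ← zpow_add₀ hq, map_smul]
  · rw [← hiN, N2_tmul, hyN, hzN, TensorProduct.zero_tmul, TensorProduct.tmul_zero, add_zero,
      map_zero]

variable [CharZero Ω]

/-- The powers of an invariant. -/
theorem power_invariant (𝒞 : LogClass.{u} Ω q) (hq : 1 < q) {n : ℕ} (X : 𝒞.Var n) (r : ℤ)
    {z : (𝒞.H X n).V} (hz : z ≠ 0) (hF : (𝒞.H X n).F z = (q : Ω) ^ r • z) (hN : (𝒞.H X n).N z = 0)
    (k : ℕ) : ∃ (Y : 𝒞.Var (n * (k + 1))) (y : (𝒞.H Y (n * (k + 1))).V), y ≠ 0 ∧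
      (𝒞.H Y (n * (k + 1))).F y = (q : Ω) ^ (((k + 1 : ℕ) : ℤ) * r) • y ∧
      (𝒞.H Y (n * (k + 1))).N y = 0 := by
  have hqΩ : (q : Ω) ≠ 0 := by
    have : q ≠ 0 := by omega
    exact_mod_cast this
  induction k with
  | zero =>
    rw [Nat.zero_add, Nat.mul_one]
    refine ⟨X, z, hz, ?_, hN⟩
    rw [Nat.cast_one, one_mul]
    exact hF
  | succ k ih =>
    obtain ⟨Y, y, hy, hyF, hyN⟩ := ih
    have h1 := prod_invariant hqΩ (tensorSummand (𝒞.kunneth Y X (n * (k + 1)) n)) hy hyF hyN hz hF hN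
    have h2 : ((k + 1 : ℕ) : ℤ) * r + r = ((k + 1 + 1 : ℕ) : ℤ) * r := by
      push_cast
      ring
    rw [h2] at h1
    exact ⟨𝒞.prod (n := n * (k + 1)) (n' := n) Y X, h1⟩

/-- **The monodromy-weight conjecture from a sublinear bound.** -/
theorem isPure_of_bound (𝒞 : LogClass.{u} Ω q) (hq : 1 < q) (f : ℕ → ℕ)
    (hf : ∀ d : ℕ, 0 < d → ∃ k : ℕ, 0 < k ∧ f (d * k) ≤ k)
    (h : ∀ (n : ℕ) (X : 𝒞.Var n) (r : ℤ), (n : ℤ) + f n ≤ 2 * r → NoInvariants (𝒞.H X n) r) :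
    ∀ (n : ℕ) (X : 𝒞.Var n) (m : ℕ), m ≤ 2 * n → (𝒞.H X m).IsPure m := by
  refine isPure_of_noInvariants 𝒞 hq ?_
  intro n X r hr z hF hN
  by_contra hz
  have hn : 0 < n := by omega
  obtain ⟨k, hk, hfk⟩ := hf n hn
  obtain ⟨j, rfl⟩ : ∃ j, k = j + 1 := ⟨k - 1, by omega⟩
  obtain ⟨Y, y, hy, hyF, hyN⟩ := power_invariant 𝒞 hq X r hz hF hN j
  refine hy (h (n * (j + 1)) Y (((j + 1 : ℕ) : ℤ) * r) ?_ y hyF hyN)
  have h1 : 2 * (((j + 1 : ℕ) : ℤ) * r) = ((j + 1 : ℕ) : ℤ) * (2 * r) := by ring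
  have h2 : ((f (n * (j + 1)) : ℕ) : ℤ) ≤ ((j + 1 : ℕ) : ℤ) := by exact_mod_cast hfk
  rw [h1, hr]
  push_cast at h2 ⊢
  linarith

/-- A function `f` with `f n / n → 0` satisfies the condition. -/
theorem exists_of_tendsto (f : ℕ → ℕ)
    (hf : Filter.Tendsto (fun n : ℕ => (f n : ℝ) / n) Filter.atTop (nhds 0)) (d : ℕ) (hd : 0 < d) :
    ∃ k : ℕ, 0 < k ∧ f (d * k) ≤ k := by
  have hd' : (0 : ℝ) < d := by exact_mod_cast hd
  have h1 : ∀ᶠ n : ℕ in Filter.atTop, (f n : ℝ) / n < 1 / d :=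
    hf.eventually (gt_mem_nhds (by positivity))
  obtain ⟨M, hM⟩ := Filter.eventually_atTop.1 h1
  refine ⟨M + 1, by omega, ?_⟩
  have h2 := hM (d * (M + 1)) (by nlinarith)
  have h3 : (0 : ℝ) < ((d * (M + 1) : ℕ) : ℝ) := by positivity
  rw [div_lt_div_iff₀ h3 hd'] at h2
  have h4 : (f (d * (M + 1)) : ℝ) < ((M + 1 : ℕ) : ℝ) := by
    have h5 : (f (d * (M + 1)) : ℝ) * d < ((M + 1 : ℕ) : ℝ) * d := by
      calc (f (d * (M + 1)) : ℝ) * d < 1 * ((d * (M + 1) : ℕ) : ℝ) := h2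
        _ = ((M + 1 : ℕ) : ℝ) * d := by push_cast; ring
    exact lt_of_mul_lt_mul_right h5 hd'.le
  exact_mod_cast h4.le

/-- Purity bounds the weights of the eigenvectors in the kernel of `N`. -/
theorem eigen_of_isPure {W : FN.{u} Ω q} {m : ℕ} (hp : W.IsPure m) {w : ℤ} {a : Ω}
    (ha : IsWeil q w a) (hw : (m : ℤ) < w) (z : W.V) (hF : W.F z = a • z) (hN : W.N z = 0) :
    z = 0 := by
  obtain ⟨k, hk⟩ : ∃ k : ℕ, w = m + (k + 1 : ℕ) := ⟨(w - m - 1).toNat, by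
    have h1 : ((w - m - 1).toNat : ℤ) = w - m - 1 := Int.toNat_of_nonneg (by omega)
    push_cast
    omega⟩
  rw [hk] at ha
  refine (hp.2 (k + 1) _ ha).1 z ?_ ?_
  · refine mem_gen.2 ⟨1, ?_⟩
    rw [pow_one, LinearMap.sub_apply, LinearMap.smul_apply, Module.End.one_apply, hF, sub_self]
  · rw [pow_succ, Module.End.mul_apply, hN, map_zero]

/-- **The equivalent statements.** -/
theorem tfae_bound (hq : 1 < q) (𝒞 : LogClass.{u} Ω q) :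
    List.TFAE [
      ∀ (n : ℕ) (X : 𝒞.Var n) (m : ℕ), m ≤ 2 * n → (𝒞.H X m).IsPure m,
      ∃ f : ℕ → ℕ, Filter.Tendsto (fun n : ℕ => (f n : ℝ) / n) Filter.atTop (nhds 0) ∧
        ∀ (n : ℕ) (X : 𝒞.Var n) (w : ℤ) (a : Ω), IsWeil q w a → (n : ℤ) + f n ≤ w →
          ∀ z : (𝒞.H X n).V, (𝒞.H X n).F z = a • z → (𝒞.H X n).N z = 0 → z = 0,
      ∃ f : ℕ → ℕ, (∀ d : ℕ, 0 < d → ∃ k : ℕ, 0 < k ∧ f (d * k) ≤ k) ∧
        ∀ (n : ℕ) (X : 𝒞.Var n) (r : ℤ), (n : ℤ) + f n ≤ 2 * r →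
          NoInvariants (𝒞.H X n) r] := by
  have hq0 : 0 < q := by omega
  tfae_have 1 → 2 := by
    intro h
    refine ⟨fun _ => 1, ?_, ?_⟩
    · simpa using tendsto_one_div_atTop_nhds_zero_nat (𝕜 := ℝ)
    · intro n X w a ha hw z hF hN
      exact eigen_of_isPure (h n X n (by omega)) ha (by push_cast at hw; omega) z hF hN
  tfae_have 2 → 3 := by
    rintro ⟨f, hf, h⟩
    refine ⟨f, fun d hd => exists_of_tendsto f hf d hd, ?_⟩
    intro n X r hr z hF hN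
    exact h n X (2 * r) ((q : Ω) ^ r) (isWeil_pow (Ω := Ω) hq0 r) hr z hF hN
  tfae_have 3 → 1 := by
    rintro ⟨f, hf, h⟩
    exact isPure_of_bound 𝒞 hq f hf h
  tfae_finish

end Pool.Agent.X305.LT
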