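import Pool.Agent.X268.KC.Stm
import Pool.Agent.X268.EV.Stm

/-!
# Log `ℓ`-adic cohomology on a class of log schemes closed under products
-/

set_option autoImplicit false

namespace Pool.Agent.X305.LT

open Module Pool.Agent.X268.WM Pool.Agent.X268.KC
open scoped TensorProduct

universe u

variable {Ω : Type} [Field Ω] {q : ℕ}

theorem comm2 (W W' : FN.{u} Ω q) (v : W.V ⊗[Ω] W'.V) :
    N2 W W' (F2 W W' v) = (q : Ω) • F2 W W' (N2 W W' v) := by
  induction v using TensorProduct.induction_on with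
  | zero => simp only [map_zero, smul_zero]
  | add x y hx hy => rw [map_add, map_add, hx, hy, map_add, map_add, smul_add]
  | tmul x y =>
    rw [F2, N2, TensorProduct.map_tmul, LinearMap.add_apply, TensorProduct.map_tmul,
      TensorProduct.map_tmul, LinearMap.add_apply, TensorProduct.map_tmul, TensorProduct.map_tmul,
      map_add, TensorProduct.map_tmul, TensorProduct.map_tmul, W.comm, W'.comm, smul_add]
    simp only [LinearMap.id_apply, TensorProduct.tmul_smul, TensorProduct.smul_tmul']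

theorem nilpotent2 (W W' : FN.{u} Ω q) : IsNilpotent (N2 W W') := by
  obtain ⟨a, ha⟩ := W.nilpotent
  obtain ⟨b, hb⟩ := W'.nilpotent
  have h1 : Commute (TensorProduct.map W.N (LinearMap.id : W'.V →ₗ[Ω] W'.V) :
      Module.End Ω (W.V ⊗[Ω] W'.V)) (TensorProduct.map (LinearMap.id : W.V →ₗ[Ω] W.V) W'.N) := by
    refine TensorProduct.ext' fun x y => ?_
    simp [Module.End.mul_apply]
  refine h1.isNilpotent_add ⟨a, ?_⟩ ⟨b, ?_⟩
  · refine TensorProduct.ext' fun x y => ?_
    have h2 : ∀ (j : ℕ) (x : W.V), ((TensorProduct.map W.N (LinearMap.id : W'.V →ₗ[Ω] W'.V) :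
        Module.End Ω (W.V ⊗[Ω] W'.V)) ^ j) (x ⊗ₜ[Ω] y) = (W.N ^ j) x ⊗ₜ[Ω] y := by
      intro j
      induction j with
      | zero => intro x; simp
      | succ j ih => intro x; rw [pow_succ, Module.End.mul_apply, TensorProduct.map_tmul,
          LinearMap.id_apply, ih, pow_succ, Module.End.mul_apply]
    rw [h2, ha, LinearMap.zero_apply, TensorProduct.zero_tmul, LinearMap.zero_apply]
  · refine TensorProduct.ext' fun x y => ?_
    have h2 : ∀ (j : ℕ) (y : W'.V), ((TensorProduct.map (LinearMap.id : W.V →ₗ[Ω] W.V) W'.N :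
        Module.End Ω (W.V ⊗[Ω] W'.V)) ^ j) (x ⊗ₜ[Ω] y) = x ⊗ₜ[Ω] (W'.N ^ j) y := by
      intro j
      induction j with
      | zero => intro y; simp
      | succ j ih => intro y; rw [pow_succ, Module.End.mul_apply, TensorProduct.map_tmul,
          LinearMap.id_apply, ih, pow_succ, Module.End.mul_apply]
    rw [h2, hb, LinearMap.zero_apply, TensorProduct.tmul_zero, LinearMap.zero_apply]

/-- The tensor product `W ⊗ W'` with Frobenius `F ⊗ F` and monodromy `N ⊗ 1 + 1 ⊗ N`. -/
noncomputable def tens (W W' : FN.{u} Ω q) : FN.{u} Ω q where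
  V := W.V ⊗[Ω] W'.V
  F := F2 W W'
  N := N2 W W'
  comm := comm2 W W'
  nilpotent := nilpotent2 W W'

/-- `T` is a direct summand of `U`, compatibly with Frobenius and monodromy. -/
def IsSummand (T U : FN.{u} Ω q) : Prop :=
  ∃ (i : T.V →ₗ[Ω] U.V) (p : U.V →ₗ[Ω] T.V), (∀ z, p (i z) = z) ∧ (∀ z, i (T.F z) = U.F (i z)) ∧
    (∀ z, i (T.N z) = U.N (i z)) ∧ (∀ u, p (U.F u) = T.F (p u)) ∧ ∀ u, p (U.N u) = T.N (p u)

/-- The cohomology `H 0`, `H 1` contains that of a log Tate curve: the unit class `e₀`, and `e₁, e₂` with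
`F e₁ = e₁`, `N e₁ = 0`, `F e₂ = q e₂`, `N e₂ = e₁`. -/
def IsTateCurve (H : ℕ → FN.{u} Ω q) : Prop :=
  (∃ e₀ : (H 0).V, e₀ ≠ 0 ∧ (H 0).F e₀ = e₀ ∧ (H 0).N e₀ = 0) ∧
  ∃ e₁ e₂ : (H 1).V, e₁ ≠ 0 ∧ (H 1).F e₁ = e₁ ∧ (H 1).N e₁ = 0 ∧
    (H 1).F e₂ = (q : Ω) • e₂ ∧ (H 1).N e₂ = e₁

/-- The log `ℓ`-adic cohomology on a class of projective vertical log smooth log schemes `X` over the
standard log point of a finite field with `q` elements (`Var n` are those of dimension `n`) which is
closed under products and contains a log Tate curve. -/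
structure LogClass (Ω : Type) [Field Ω] [CharZero Ω] (q : ℕ) extends LogCohomology.{u} Ω q where
  /-- Poincaré duality -/
  dual : ∀ {n : ℕ} (X : Var n) (m : ℕ), m ≤ 2 * n → IsDual (H X m) (H X (2 * n - m)) n
  /-- the product -/
  prod : {n n' : ℕ} → Var n → Var n' → Var (n + n')
  /-- the Künneth formula -/
  kunneth : ∀ {n n' : ℕ} (X : Var n) (X' : Var n') (m m' : ℕ),
    IsSummand (tens (H X m) (H X' m')) (H (prod X X') (m + m'))
  /-- a log Tate curve -/
  curve : Var 1
  isTateCurve : IsTateCurve (H curve)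

/-- `W(r)` has no nonzero invariant: no nonzero `z` with `F z = q ^ r z` and `N z = 0`. For `W = H^m(X)` this
is `H^m(X)(r)^G = 0`, `G` the log fundamental group. -/
def NoInvariants (W : FN.{u} Ω q) (r : ℤ) : Prop :=
  ∀ z : W.V, W.F z = (q : Ω) ^ r • z → W.N z = 0 → z = 0

end Pool.Agent.X305.LT
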