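import Pool.Agent.X305.LT.Defs
import Pool.Agent.X268.KC.Ev

/-!
# Invariants in the degrees `m < 2 r` and the monodromy-weight conjecture
-/

set_option autoImplicit false

namespace Pool.Agent.X305.LT

open Module Pool.Agent.X268.WM Pool.Agent.X268.KC Pool.Agent.X268.EV
open scoped TensorProduct

universe u

variable {Ω : Type} [Field Ω] {q : ℕ}

/-- `W ⊗ W'` is a direct summand of `U`, compatibly with Frobenius and monodromy (Künneth formula). -/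
def IsTensorSummand (W W' U : FN.{u} Ω q) : Prop :=
  ∃ (i : W.V ⊗[Ω] W'.V →ₗ[Ω] U.V) (p : U.V →ₗ[Ω] W.V ⊗[Ω] W'.V), (∀ z, p (i z) = z) ∧
    (∀ z, i (F2 W W' z) = U.F (i z)) ∧ (∀ z, i (N2 W W' z) = U.N (i z)) ∧
    (∀ u, p (U.F u) = F2 W W' (p u)) ∧ ∀ u, p (U.N u) = N2 W W' (p u)

theorem tensorSummand {W W' U : FN.{u} Ω q} (h : IsSummand (tens W W') U) :
    IsTensorSummand W W' U := h

theorem tmul_eq_zero' {V V' : Type u} [AddCommGroup V] [Module Ω V] [AddCommGroup V'] [Module Ω V']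
    {x : V} {y : V'} (hy : y ≠ 0) (h : x ⊗ₜ[Ω] y = 0) : x = 0 := by
  have h0 : ∃ φ : Dual Ω V', φ y ≠ 0 := by
    by_contra hcon
    push Not at hcon
    exact hy ((Module.forall_dual_apply_eq_zero_iff Ω y).1 hcon)
  obtain ⟨φ, hφ⟩ := h0
  have h1 := congrArg ((TensorProduct.rid Ω V).toLinearMap ∘ₗ LinearMap.lTensor V φ) h
  rw [map_zero, LinearMap.comp_apply, LinearMap.lTensor_tmul] at h1
  have h2 : φ y • x = 0 := by simpa using h1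
  exact (smul_eq_zero.1 h2).resolve_left hφ

theorem N2_tmul (W W' : FN.{u} Ω q) (x : W.V) (y : W'.V) :
    N2 W W' (x ⊗ₜ[Ω] y) = W.N x ⊗ₜ[Ω] y + x ⊗ₜ[Ω] W'.N y := by
  rw [N2, LinearMap.add_apply, TensorProduct.map_tmul, TensorProduct.map_tmul]
  rfl

theorem F2_tmul (W W' : FN.{u} Ω q) (x : W.V) (y : W'.V) :
    F2 W W' (x ⊗ₜ[Ω] y) = W.F x ⊗ₜ[Ω] W'.F y := by
  rw [F2, TensorProduct.map_tmul]

section curve

variable {W W' : FN.{u} Ω q} {e₁ e₂ : W'.V} (h1 : W'.N e₁ = 0) (h2 : W'.N e₂ = e₁)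
include h1

theorem N2_pow_e1 (x : W.V) (j : ℕ) : (N2 W W' ^ j) (x ⊗ₜ[Ω] e₁) = (W.N ^ j) x ⊗ₜ[Ω] e₁ := by
  induction j with
  | zero => simp
  | succ j ih =>
    rw [pow_succ', Module.End.mul_apply, ih, N2_tmul, h1, TensorProduct.tmul_zero, add_zero,
      pow_succ', Module.End.mul_apply]

include h2

theorem N2_pow_e2 (x : W.V) (j : ℕ) : (N2 W W' ^ j) (W.N x ⊗ₜ[Ω] e₂) =
    (W.N ^ (j + 1)) x ⊗ₜ[Ω] e₂ + (j : Ω) • ((W.N ^ j) x ⊗ₜ[Ω] e₁) := by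
  induction j with
  | zero => simp
  | succ j ih =>
    rw [pow_succ', Module.End.mul_apply, ih, map_add, map_smul, N2_tmul, N2_tmul, h1, h2,
      TensorProduct.tmul_zero, add_zero]
    rw [← Module.End.mul_apply, ← pow_succ', ← Module.End.mul_apply, ← pow_succ', Nat.cast_add,
      Nat.cast_one, add_smul, one_smul]
    abel

end curve

variable [CharZero Ω]

omit [CharZero Ω] in
theorem summand_pow {W W' U : FN.{u} Ω q} {i : W.V ⊗[Ω] W'.V →ₗ[Ω] U.V}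
    (hN : ∀ z, i (N2 W W' z) = U.N (i z)) (j : ℕ) (z : W.V ⊗[Ω] W'.V) :
    i ((N2 W W' ^ j) z) = (U.N ^ j) (i z) := by
  induction j generalizing z with
  | zero => simp
  | succ j ih =>
    rw [pow_succ, Module.End.mul_apply, ih, hN, pow_succ, Module.End.mul_apply]

omit [CharZero Ω] in
theorem step_aux (W W' : FN.{u} Ω q) {e₁ e₂ : W'.V} (he : e₁ ≠ 0) (hF1 : W'.F e₁ = e₁)
    (hN1 : W'.N e₁ = 0) (hF2 : W'.F e₂ = (q : Ω) • e₂) (hN2 : W'.N e₂ = e₁) (r : ℤ) (k : ℕ)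
    (hk : ((k : Ω) + 1) ≠ 0) {z : W.V} (hz : z ≠ 0) (hF : W.F z = (q : Ω) ^ r • z)
    (hN : (W.N ^ (k + 1 + 1)) z = 0) :
    ∃ z' : W.V ⊗[Ω] W'.V, z' ≠ 0 ∧ F2 W W' z' = (q : Ω) ^ r • z' ∧
      (N2 W W' ^ (k + 1)) z' = 0 := by
  refine ⟨W.N z ⊗ₜ[Ω] e₂ - ((k : Ω) + 1) • (z ⊗ₜ[Ω] e₁), ?_, ?_, ?_⟩
  · intro h0
    have h3 := congrArg (TensorProduct.map (LinearMap.id : W.V →ₗ[Ω] W.V) W'.N) h0
    rw [map_zero, map_sub, map_smul, TensorProduct.map_tmul, TensorProduct.map_tmul, hN1, hN2,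
      TensorProduct.tmul_zero, smul_zero, sub_zero] at h3
    have h4 : W.N z = 0 := tmul_eq_zero' he h3
    rw [h4, TensorProduct.zero_tmul, zero_sub, neg_eq_zero] at h0
    exact hz (tmul_eq_zero' he ((smul_eq_zero.1 h0).resolve_left hk))
  · have h5 : (q : Ω) • W.F (W.N z) = (q : Ω) ^ r • W.N z := by
      rw [← W.comm, hF, map_smul]
    rw [map_sub, map_smul, F2_tmul, F2_tmul, hF, hF1, hF2, TensorProduct.tmul_smul,
      TensorProduct.smul_tmul', h5, ← TensorProduct.smul_tmul', ← TensorProduct.smul_tmul',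
      smul_sub, smul_comm ((q : Ω) ^ r)]
  · rw [map_sub, map_smul, N2_pow_e1 hN1, N2_pow_e2 hN1 hN2, hN, TensorProduct.zero_tmul,
      zero_add, Nat.cast_add, Nat.cast_one, sub_self]

/-- From a vector killed by `N ^ (k + 1)` to an invariant, on the product with log Tate curves. -/
theorem exists_invariant (𝒞 : LogClass.{u} Ω q) (r : ℤ) (k : ℕ) :
    ∀ (n : ℕ) (X : 𝒞.Var n) (m : ℕ), m ≤ 2 * n → 2 * r = m + k + 1 → ∀ z : (𝒞.H X m).V, z ≠ 0 →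
      (𝒞.H X m).F z = (q : Ω) ^ r • z → ((𝒞.H X m).N ^ (k + 1)) z = 0 →
      ∃ (n' : ℕ) (Y : 𝒞.Var n') (m' : ℕ), m' ≤ 2 * n' ∧ 2 * r = m' + 1 ∧ ∃ y : (𝒞.H Y m').V, y ≠ 0 ∧
        (𝒞.H Y m').F y = (q : Ω) ^ r • y ∧ (𝒞.H Y m').N y = 0 := by
  induction k with
  | zero =>
    intro n X m hm hr z hz hF hN
    refine ⟨n, X, m, hm, by simpa using hr, z, hz, hF, ?_⟩
    simpa using hN
  | succ k ih =>
    intro n X m hm hr z hz hF hN
    obtain ⟨i, p, hpi, hiF, hiN, -, -⟩ := tensorSummand (𝒞.kunneth X 𝒞.curve m 1)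
    obtain ⟨-, e₁, e₂, he, hF1, hN1, hF2, hN2⟩ := 𝒞.isTateCurve
    have hk : ((k : Ω) + 1) ≠ 0 := by exact_mod_cast Nat.succ_ne_zero k
    obtain ⟨z', hz0, hzF, hzN⟩ := step_aux (𝒞.H X m) (𝒞.H 𝒞.curve 1) he hF1 hN1 hF2 hN2 r k hk hz
      hF hN
    refine ih (n + 1) (𝒞.prod X 𝒞.curve) (m + 1) (by omega) (by push_cast at hr ⊢; linarith) (i z')
      ?_ ?_ ?_
    · intro h0
      apply hz0
      rw [← hpi z', h0, map_zero]
    · rw [← hiF, hzF, map_smul]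
    · rw [← summand_pow hiN, hzN, map_zero]

omit [CharZero Ω] in
theorem raise_aux {W W' U : FN.{u} Ω q} (h : IsTensorSummand W W' U) {e₀ : W'.V} (he : e₀ ≠ 0)
    (hF0 : W'.F e₀ = e₀) (hN0 : W'.N e₀ = 0) (r : ℤ) {y : W.V} (hy : y ≠ 0)
    (hyF : W.F y = (q : Ω) ^ r • y) (hyN : W.N y = 0) :
    ∃ u : U.V, u ≠ 0 ∧ U.F u = (q : Ω) ^ r • u ∧ U.N u = 0 := by
  obtain ⟨i, p, hpi, hiF, hiN, -, -⟩ := h
  refine ⟨i (y ⊗ₜ[Ω] e₀), ?_, ?_, ?_⟩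
  · intro h0
    have h1 : y ⊗ₜ[Ω] e₀ = 0 := by rw [← hpi (y ⊗ₜ[Ω] e₀), h0, map_zero]
    exact hy (tmul_eq_zero' he h1)
  · rw [← hiF, F2_tmul, hyF, hF0, ← TensorProduct.smul_tmul', map_smul]
  · rw [← hiN, N2_tmul, hyN, hN0, TensorProduct.zero_tmul, TensorProduct.tmul_zero, add_zero,
      map_zero]

/-- Raising the dimension. -/
theorem raise (𝒞 : LogClass.{u} Ω q) (r : ℤ) {n : ℕ} (X : 𝒞.Var n) (m : ℕ) {z : (𝒞.H X m).V}
    (hz : z ≠ 0) (hF : (𝒞.H X m).F z = (q : Ω) ^ r • z) (hN : (𝒞.H X m).N z = 0) (j : ℕ) :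
    ∃ (Y : 𝒞.Var (n + j)) (y : (𝒞.H Y m).V), y ≠ 0 ∧ (𝒞.H Y m).F y = (q : Ω) ^ r • y ∧
      (𝒞.H Y m).N y = 0 := by
  induction j with
  | zero => exact ⟨X, z, hz, hF, hN⟩
  | succ j ih =>
    obtain ⟨Y, y, hy, hyF, hyN⟩ := ih
    obtain ⟨⟨e₀, he, hF0, hN0⟩, -⟩ := 𝒞.isTateCurve
    exact ⟨𝒞.prod (n := n + j) (n' := 1) Y 𝒞.curve,
      raise_aux (tensorSummand (𝒞.kunneth Y 𝒞.curve m 0)) he hF0 hN0 r hy hyF hyN⟩

/-- Lowering the dimension by hyperplane sections. -/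
theorem lower (𝒞 : LogCohomology.{u} Ω q) (r : ℤ) (m d : ℕ) :
    ∀ (Y : 𝒞.Var (m + d)) (y : (𝒞.H Y m).V), y ≠ 0 → (𝒞.H Y m).F y = (q : Ω) ^ r • y →
      (𝒞.H Y m).N y = 0 → ∃ (X : 𝒞.Var m) (z : (𝒞.H X m).V), z ≠ 0 ∧
        (𝒞.H X m).F z = (q : Ω) ^ r • z ∧ (𝒞.H X m).N z = 0 := by
  induction d with
  | zero => exact fun Y y h1 h2 h3 => ⟨Y, y, h1, h2, h3⟩
  | succ d ih =>
    intro Y y h1 h2 h3
    obtain ⟨Z, hZ⟩ := 𝒞.hyperplane (n := m + d) Y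
    obtain ⟨f, hf, hfF, hfN⟩ := hZ m (by omega)
    refine ih Z (f y) ?_ ?_ ?_
    · intro h0
      exact h1 (hf (h0.trans (map_zero f).symm))
    · rw [← hfF, h2, map_smul]
    · rw [← hfN, h3, map_zero]

/-- From the middle degree to all degrees. -/
theorem all_of_middle (𝒞 : LogClass.{u} Ω q)
    (h : ∀ (n : ℕ) (X : 𝒞.Var n) (r : ℤ), 2 * r = n + 1 → NoInvariants (𝒞.H X n) r)
    (n : ℕ) (X : 𝒞.Var n) (m : ℕ) (r : ℤ) (hr : 2 * r = m + 1) : NoInvariants (𝒞.H X m) r := by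
  intro z hF hN
  by_contra hz
  have h1 := raise 𝒞 r X m hz hF hN m
  rw [Nat.add_comm n m] at h1
  obtain ⟨Y, y, hy, hyF, hyN⟩ := h1
  obtain ⟨Z, x, hx, hxF, hxN⟩ := lower 𝒞.toLogCohomology r m n Y y hy hyF hyN
  exact hx (h m Z r hr x hxF hxN)

/-- The monodromy-weight property excludes invariants of positive weight excess. -/
theorem noInvariants_of_isPure (hq : 1 < q) {W : FN.{u} Ω q} {m : ℕ} (hp : W.IsPure m) (r : ℤ)
    (hr : (m : ℤ) < 2 * r) : NoInvariants W r := by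
  intro z hF hN
  have hq0 : 0 < q := by omega
  obtain ⟨k, hk⟩ : ∃ k : ℕ, 2 * r = m + (k + 1 : ℕ) := ⟨(2 * r - m - 1).toNat, by
    have h1 : ((2 * r - m - 1).toNat : ℤ) = 2 * r - m - 1 := Int.toNat_of_nonneg (by omega)
    push_cast
    omega⟩
  have h1 : IsWeil q (m + (k + 1 : ℕ)) ((q : Ω) ^ r) := by
    have h2 := isWeil_pow (Ω := Ω) hq0 r
    rwa [hk] at h2
  refine (hp.2 (k + 1) _ h1).1 z ?_ ?_
  · refine mem_gen.2 ⟨1, ?_⟩
    rw [pow_one, LinearMap.sub_apply, LinearMap.smul_apply, Module.End.one_apply, hF, sub_self]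
  · rw [pow_succ, Module.End.mul_apply, hN, map_zero]

/-- The Tate part from the middle degree. -/
theorem isPure_of_noInvariants (𝒞 : LogClass.{u} Ω q) (hq : 1 < q)
    (h : ∀ (n : ℕ) (X : 𝒞.Var n) (r : ℤ), 2 * r = n + 1 → NoInvariants (𝒞.H X n) r) :
    ∀ (n : ℕ) (X : 𝒞.Var n) (m : ℕ), m ≤ 2 * n → (𝒞.H X m).IsPure m := by
  refine isPure_of_tatePart 𝒞.toLogCohomology hq ?_
  intro n X m n' X' m' hm hm' r k hk hr z hF hN
  by_contra hz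
  obtain ⟨i, p, hpi, hiF, hiN, -, -⟩ := tensorSummand (𝒞.kunneth X X' m m')
  obtain ⟨j, rfl⟩ : ∃ j, k = j + 1 := ⟨k - 1, by omega⟩
  have h0 : i z ≠ 0 := by
    intro h0
    apply hz
    rw [← hpi z, h0, map_zero]
  obtain ⟨n₁, Y, m₁, hm₁, hr₁, y, hy, hyF, hyN⟩ := exists_invariant 𝒞 r j (n + n')
    (𝒞.prod X X') (m + m') (by omega) (by push_cast at hr ⊢; linarith) (i z) h0
    (by rw [← hiF, hF, map_smul]) (by rw [← summand_pow hiN, hN, map_zero])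
  exact hy (all_of_middle 𝒞 h n₁ Y m₁ r hr₁ y hyF hyN)

/-- The evaluation for pairs from the evaluation for products. -/
theorem evaluation_pair (𝒞 : LogClass.{u} Ω q)
    (h : ∀ (n : ℕ) (X : 𝒞.Var n) (m : ℕ), m ≤ 2 * n →
      EvaluationSurjective q (𝒞.H X m).F (𝒞.H X m).N m)
    (n : ℕ) (X : 𝒞.Var n) (m : ℕ) (n' : ℕ) (X' : 𝒞.Var n') (m' : ℕ) (hm : m ≤ 2 * n)
    (hm' : m' ≤ 2 * n') :
    EvaluationSurjective q (F2 (𝒞.H X m) (𝒞.H X' m')) (N2 (𝒞.H X m) (𝒞.H X' m')) (m + m') := by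
  intro r t hrt z hF hN
  obtain ⟨i, p, hpi, hiF, hiN, hpF, hpN⟩ := tensorSummand (𝒞.kunneth X X' m m')
  obtain ⟨f, hf, hf0⟩ := h (n + n') (𝒞.prod X X') (m + m') (by omega) r t hrt (i z)
    (by rw [← hiF, hF, map_smul]) (by rw [← hiN, hN, map_zero])
  refine ⟨fun j => p (f j), fun j hj => ⟨?_, ?_⟩, ?_⟩
  · rw [← hpF, (hf j hj).1, map_smul]
  · rw [← hpN, (hf j hj).2, map_smul]
  · show p (f 0) = z
    rw [hf0, hpi]

/-- **The four equivalent statements.** -/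
theorem tfae [IsAlgClosed Ω] (hq : 1 < q) (𝒞 : LogClass.{u} Ω q) :
    List.TFAE [
      ∀ (n : ℕ) (X : 𝒞.Var n) (m : ℕ) (r : ℤ), m ≤ 2 * n → (m : ℤ) < 2 * r →
        NoInvariants (𝒞.H X m) r,
      ∀ (n : ℕ) (X : 𝒞.Var n) (r : ℤ), 2 * r = n + 1 → NoInvariants (𝒞.H X n) r,
      ∀ (n : ℕ) (X : 𝒞.Var n) (m : ℕ), m ≤ 2 * n →
        EvaluationSurjective q (𝒞.H X m).F (𝒞.H X m).N m,
      ∀ (n : ℕ) (X : 𝒞.Var n) (m : ℕ), m ≤ 2 * n → (𝒞.H X m).IsPure m] := by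
  tfae_have 1 → 2 := fun h n X r hr => h n X n r (by omega) (by omega)
  tfae_have 2 → 4 := fun h => isPure_of_noInvariants 𝒞 hq h
  tfae_have 4 → 1 := fun h n X m r hm hr => noInvariants_of_isPure hq (h n X m hm) r hr
  tfae_have 4 → 3 := fun h n X m hm => evaluation_of_isPure hq (h n X m hm)
  tfae_have 3 → 4 := fun h => isPure_of_evaluation 𝒞.toLogCohomology hq
    (fun n X m hm => 𝒞.dual X m hm) (evaluation_pair 𝒞 h)
  tfae_finish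

end Pool.Agent.X305.LT
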