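import Pool.Agent.X305.WM.CdrMain

/-!
# The second moments of the weights and of the Jordan type
-/

set_option autoImplicit false

namespace Pool.Agent.X305.LT

open Module Polynomial Pool.Agent.X268.WM Pool.Agent.X305.WM

universe u

/-! ### Sums over a chain -/

theorem sum_sq (x : ℤ) (l : ℕ) : 3 * ∑ b ∈ Finset.range l, (x - 2 * (b : ℤ)) ^ 2 =
    ((l : ℤ) ^ 3 - l) + 3 * l * (x - (l - 1)) ^ 2 := by
  have h : ∀ l : ℕ, 3 * ∑ b ∈ Finset.range l, (x - 2 * (b : ℤ)) ^ 2 =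
      3 * l * x ^ 2 - 6 * x * l * (l - 1) + 2 * ((l : ℤ) - 1) * l * (2 * l - 1) := by
    intro l
    induction l with
    | zero => simp
    | succ l ih =>
      rw [Finset.sum_range_succ, mul_add, ih]
      push_cast
      ring
  rw [h]
  ring

theorem sum_min (l : ℕ) (D : ℕ) (hD : l ≤ D) :
    6 * ∑ k ∈ Finset.range D, (k : ℤ) * ((l : ℤ) - (min l k : ℕ)) = (l : ℤ) ^ 3 - l := by
  have h : ∀ n : ℕ, n ≤ l → 6 * ∑ k ∈ Finset.range n, (k : ℤ) * ((l : ℤ) - (min l k : ℕ)) =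
      3 * l * n * (n - 1) - ((n : ℤ) - 1) * n * (2 * n - 1) := by
    intro n
    induction n with
    | zero => intro; simp
    | succ n ih =>
      intro hn
      rw [Finset.sum_range_succ, mul_add, ih (by omega), Nat.min_eq_right (by omega : n ≤ l)]
      push_cast
      ring
  obtain ⟨e, rfl⟩ := Nat.exists_eq_add_of_le hD
  rw [Finset.sum_range_add]
  have h1 : ∑ x ∈ Finset.range e, ((l + x : ℕ) : ℤ) * ((l : ℤ) - (min l (l + x) : ℕ)) = 0 := by
    refine Finset.sum_eq_zero fun x _ => ?_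
    rw [Nat.min_eq_left (by omega : l ≤ l + x), sub_self, mul_zero]
  rw [h1, add_zero, h l le_rfl]
  ring

variable {Ω : Type} [Field Ω] [CharZero Ω] {q : ℕ}

/-- The sum of `k * rank (N ^ k)` over all `k`. -/
noncomputable def jordanMoment (W : FN.{u} Ω q) : ℤ :=
  ∑ k ∈ Finset.range (finrank Ω W.V), (k : ℤ) * finrank Ω ↥(LinearMap.range (W.N ^ k))

variable {W : FN.{u} Ω q}

theorem sum_moment (E : WChains W) (m : ℤ) :
    ∑ᶠ x : ℤ, (E.num x : ℤ) * (x - m) ^ 2 =
      ∑ i, ∑ b : Fin (E.D.l i), ((E.w i - m) - 2 * ((b : ℕ) : ℤ)) ^ 2 := by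
  classical
  have h1 : Function.support (fun x : ℤ => (E.num x : ℤ) * (x - m) ^ 2) ⊆
      ((Finset.univ.image fun y : E.Idx => E.wt y : Finset ℤ) : Set ℤ) := by
    intro x hx
    rw [Function.mem_support] at hx
    have h2 : E.num x ≠ 0 := by
      intro h
      rw [h, Nat.cast_zero, zero_mul] at hx
      exact hx rfl
    rw [← E.card_wt, Finset.card_ne_zero] at h2
    obtain ⟨y, hy⟩ := h2
    rw [Finset.mem_filter] at hy
    exact Finset.mem_coe.2 (Finset.mem_image.2 ⟨y, Finset.mem_univ _, hy.2⟩)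
  rw [finsum_eq_sum_of_support_subset _ h1]
  have h3 : ∀ x ∈ (Finset.univ.image fun y : E.Idx => E.wt y : Finset ℤ),
      (E.num x : ℤ) * (x - m) ^ 2 =
        ∑ y ∈ Finset.univ.filter (fun y : E.Idx => E.wt y = x), (E.wt y - m) ^ 2 := by
    intro x _
    rw [Finset.sum_congr rfl (g := fun _ => (x - m) ^ 2) (fun y hy => by
      rw [(Finset.mem_filter.1 hy).2]), Finset.sum_const, E.card_wt, nsmul_eq_mul]
  rw [Finset.sum_congr rfl h3, Finset.sum_fiberwise_of_maps_to (fun y _ =>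
    Finset.mem_image_of_mem _ (Finset.mem_univ y)), Fintype.sum_sigma]
  refine Finset.sum_congr rfl fun i _ => Finset.sum_congr rfl fun b _ => ?_
  congr 1
  rw [WChains.wt]
  ring

theorem jordan_eq (E : WChains W) :
    6 * jordanMoment W = ∑ i, ((E.D.l i : ℤ) ^ 3 - E.D.l i) := by
  have hfd := E.D.finiteDimensional
  have hle : ∀ i, E.D.l i ≤ finrank Ω W.V := by
    intro i
    rw [E.D.finrank_eq]
    exact Finset.single_le_sum (fun j _ => Nat.zero_le (E.D.l j)) (Finset.mem_univ i)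
  have hr : ∀ k : ℕ, (finrank Ω ↥(LinearMap.range (W.N ^ k)) : ℤ) =
      ∑ j, ((E.D.l j : ℤ) - (min (E.D.l j) k : ℕ)) := by
    intro k
    have h1 := LinearMap.finrank_range_add_finrank_ker (W.N ^ k)
    rw [E.D.finrank_ker_pow, E.D.finrank_eq] at h1
    rw [Finset.sum_sub_distrib, eq_sub_iff_add_eq]
    exact_mod_cast h1
  rw [jordanMoment, Finset.sum_congr rfl fun k _ => by rw [hr k, Finset.mul_sum],
    Finset.sum_comm, Finset.mul_sum]
  exact Finset.sum_congr rfl fun j _ => sum_min _ _ (hle j)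

/-- The second moment of the weights about `m`, in terms of the Jordan chains. -/
theorem moment_eq (E : WChains W) (m : ℤ) :
    ∑ᶠ x : ℤ, (E.num x : ℤ) * (x - m) ^ 2 = 2 * jordanMoment W +
      ∑ i, (E.D.l i : ℤ) * (E.w i - m - (E.D.l i - 1)) ^ 2 := by
  have h1 : 3 * ∑ᶠ x : ℤ, (E.num x : ℤ) * (x - m) ^ 2 = 6 * jordanMoment W +
      3 * ∑ i, (E.D.l i : ℤ) * (E.w i - m - (E.D.l i - 1)) ^ 2 := by
    rw [sum_moment, jordan_eq E, Finset.mul_sum, Finset.mul_sum, ← Finset.sum_add_distrib]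
    refine Finset.sum_congr rfl fun i _ => ?_
    rw [Fin.sum_univ_eq_sum_range (fun b => ((E.w i - m) - 2 * ((b : ℕ) : ℤ)) ^ 2), sum_sq]
    ring
  linarith

theorem moment_le (E : WChains W) (m : ℤ) :
    2 * jordanMoment W ≤ ∑ᶠ x : ℤ, (E.num x : ℤ) * (x - m) ^ 2 := by
  rw [moment_eq E m]
  have h : 0 ≤ ∑ i, (E.D.l i : ℤ) * (E.w i - m - (E.D.l i - 1)) ^ 2 :=
    Finset.sum_nonneg fun i _ => by positivity
  linarith

theorem moment_eq_iff (hq : 1 < q) (hmix : W.IsMixed) (E : WChains W) (m : ℕ) :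
    2 * jordanMoment W = ∑ᶠ x : ℤ, (E.num x : ℤ) * (x - m) ^ 2 ↔ W.IsPure m := by
  rw [moment_eq E m, WChains.isPure_iff hq hmix E m]
  have h : (2 * jordanMoment W = 2 * jordanMoment W +
      ∑ i, (E.D.l i : ℤ) * (E.w i - m - (E.D.l i - 1)) ^ 2) ↔
      ∑ i, (E.D.l i : ℤ) * (E.w i - m - (E.D.l i - 1)) ^ 2 = 0 := by
    constructor <;> intro h <;> linarith
  rw [h, Finset.sum_eq_zero_iff_of_nonneg fun i _ => by positivity]
  refine forall_congr' fun i => ?_
  have hl := E.D.pos i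
  have hl' : (E.D.l i : ℤ) ≠ 0 := by exact_mod_cast hl.ne'
  constructor
  · intro h1
    have h2 := h1 (Finset.mem_univ i)
    have h3 := pow_eq_zero_iff (two_ne_zero) |>.1 ((mul_eq_zero.1 h2).resolve_left hl')
    linarith
  · intro h1 _
    rw [h1]
    ring

/-- The second moment about `m` of the weights of the roots of `P`. -/
noncomputable def weightMoment (q : ℕ) (P : ℤ[X]) (m : ℤ) : ℤ :=
  ∑ᶠ x : ℤ, (weightCount q P x : ℤ) * (x - m) ^ 2

theorem weightMoment_eq [IsAlgClosed Ω] (hq : 1 < q) (E : WChains W) (P : ℤ[X])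
    (hP : W.F.charpoly = P.map (Int.castRingHom Ω)) (m : ℤ) :
    weightMoment q P m = ∑ᶠ x : ℤ, (E.num x : ℤ) * (x - m) ^ 2 := by
  rw [weightMoment]
  exact finsum_congr fun x => by rw [E.num_eq_count hq P hP]

/-- **The second moment of the weights decides weight-monodromy.** -/
theorem moment_decides (hq : 1 < q) (m : ℕ) {Λ : Type} (Ω : Λ → Type) [∀ l, Field (Ω l)]
    [∀ l, CharZero (Ω l)] [∀ l, IsAlgClosed (Ω l)] (W : ∀ l, FN.{u} (Ω l) q)
    (hmix : ∀ l, (W l).IsMixed) (P : ℤ[X]) (hPm : P.Monic)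
    (hP : ∀ l, (W l).F.charpoly = P.map (Int.castRingHom (Ω l))) :
    (∀ l, ∀ j : ℤ, 2 * jordanMoment (W l) ≤ weightMoment q P j) ∧
      (∀ l, 2 * jordanMoment (W l) = weightMoment q P m ↔ (W l).IsPure m) ∧
      ((∀ l, 2 * jordanMoment (W l) = weightMoment q P m) →
        ∃ R : ℤ[X], R.Monic ∧ ∀ l, kerPoly (W l) = R.map (Int.castRingHom (Ω l))) := by
  have h2 : ∀ l, 2 * jordanMoment (W l) = weightMoment q P m ↔ (W l).IsPure m := by
    intro l
    obtain ⟨E⟩ := exists_wchains hq (hmix l)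
    rw [weightMoment_eq hq E P (hP l)]
    exact moment_eq_iff hq (hmix l) E m
  refine ⟨fun l j => ?_, h2, fun h => ?_⟩
  · obtain ⟨E⟩ := exists_wchains hq (hmix l)
    rw [weightMoment_eq hq E P (hP l)]
    exact moment_le E j
  · obtain ⟨R, hRm, -, hrm⟩ := exists_reduced hq hPm
    refine ⟨R, hRm, fun l => eq_of_rm (LinearMap.charpoly_monic _) (hRm.map _) fun a => ?_⟩
    rw [rm_kerPoly, kmult_of_pure hq ((h2 l).1 (h l)), hrm (Ω l) a, ← hP l, rm_charpoly,
      rm_charpoly]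

end Pool.Agent.X305.LT
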