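import Pool.Agent.X305.LT.Defs

/-!
# Cohomology of a class of smooth projective varieties over a local field closed under products
-/

set_option autoImplicit false

namespace Pool.Agent.X305.LT

open Module Pool.Agent.X268.WM Pool.Agent.X268.KC
open scoped TensorProduct

universe u

/-- The cohomology (`ℓ`-adic, or Hyodo-Kato) of a class of smooth projective varieties over a local field with
residue field of `q` elements (`Var n` are those of dimension `n`), closed under products and containing an
elliptic curve with split multiplicative reduction (Tate curve). -/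
structure ProdClass (Ω : Type) [Field Ω] [CharZero Ω] (q : ℕ) extends Cohomology.{u} Ω q where
  /-- Poincaré duality in the middle degree -/
  dual : ∀ {n : ℕ} (X : Var n), IsDual (H X n) (H X n) n
  /-- the product -/
  prod : {n n' : ℕ} → Var n → Var n' → Var (n + n')
  /-- the Künneth formula -/
  kunneth : ∀ {n n' : ℕ} (X : Var n) (X' : Var n') (m m' : ℕ),
    IsSummand (tens (H X m) (H X' m')) (H (prod X X') (m + m'))
  /-- a Tate curve -/
  curve : Var 1
  isTateCurve : IsTateCurve (H curve)

variable {Ω : Type} [Field Ω] {q : ℕ}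

/-- The product of `X` with `j` copies of the Tate curve. -/
def ProdClass.withCurves [CharZero Ω] (𝒞 : ProdClass.{u} Ω q) {n : ℕ} (X : 𝒞.Var n) :
    (j : ℕ) → 𝒞.Var (n + j)
  | 0 => X
  | j + 1 => 𝒞.prod (n := n + j) (n' := 1) (𝒞.withCurves X j) 𝒞.curve

/-- No nonzero linear form `φ` on `W` satisfies `φ ∘ F = q ^ s φ` and `φ ∘ N = 0`. -/
def NoForms (W : FN.{u} Ω q) (s : ℤ) : Prop :=
  ∀ φ : Dual Ω W.V, (∀ v, φ (W.F v) = (q : Ω) ^ s * φ v) → (∀ v, φ (W.N v) = 0) → φ = 0

end Pool.Agent.X305.LT
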