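import Pool.Agent.X305.LT.VDefs
import Pool.Agent.X305.LT.Main
import Pool.Agent.X268.WM.Main

/-!
# The central twist of the middle cohomology and the weight-monodromy conjecture
-/

set_option autoImplicit false

namespace Pool.Agent.X305.LT

open Module Pool.Agent.X268.WM Pool.Agent.X268.KC Pool.Agent.X268.EV
open scoped TensorProduct

universe u

variable {Ω : Type} [Field Ω] [CharZero Ω] {q : ℕ}

theorem summand_step {W W' U : FN.{u} Ω q} (h : IsTensorSummand W W' U) {e₁ e₂ : W'.V} (he : e₁ ≠ 0)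
    (hF1 : W'.F e₁ = e₁) (hN1 : W'.N e₁ = 0) (hF2 : W'.F e₂ = (q : Ω) • e₂) (hN2 : W'.N e₂ = e₁)
    (r : ℤ) (k : ℕ) {z : W.V} (hz : z ≠ 0) (hF : W.F z = (q : Ω) ^ r • z)
    (hN : (W.N ^ (k + 1 + 1)) z = 0) :
    ∃ u : U.V, u ≠ 0 ∧ U.F u = (q : Ω) ^ r • u ∧ (U.N ^ (k + 1)) u = 0 := by
  obtain ⟨i, p, hpi, hiF, hiN, -, -⟩ := h
  have hk : ((k : Ω) + 1) ≠ 0 := by exact_mod_cast Nat.succ_ne_zero k
  obtain ⟨z', hz0, hzF, hzN⟩ := step_aux W W' he hF1 hN1 hF2 hN2 r k hk hz hF hN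
  refine ⟨i z', ?_, ?_, ?_⟩
  · intro h0
    apply hz0
    rw [← hpi z', h0, map_zero]
  · rw [← hiF, hzF, map_smul]
  · rw [← summand_pow hiN, hzN, map_zero]

/-- From a vector killed by `N ^ (k + 1)` to an invariant, on the product with `k` Tate curves. -/
theorem withCurves_aux (𝒞 : ProdClass.{u} Ω q) (r : ℤ) {n : ℕ} (X : 𝒞.Var n) (m k : ℕ)
    {z : (𝒞.H X m).V} (hz : z ≠ 0) (hF : (𝒞.H X m).F z = (q : Ω) ^ r • z)
    (hN : ((𝒞.H X m).N ^ (k + 1)) z = 0) (j : ℕ) : ∀ l : ℕ, j + l = k →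
      ∃ y : (𝒞.H (𝒞.withCurves X j) (m + j)).V, y ≠ 0 ∧
        (𝒞.H (𝒞.withCurves X j) (m + j)).F y = (q : Ω) ^ r • y ∧
        ((𝒞.H (𝒞.withCurves X j) (m + j)).N ^ (l + 1)) y = 0 := by
  induction j with
  | zero =>
    intro l hl
    rw [Nat.zero_add] at hl
    exact ⟨z, hz, hF, by rw [hl]; exact hN⟩
  | succ j ih =>
    intro l hl
    obtain ⟨y, hy, hyF, hyN⟩ := ih (l + 1) (by omega)
    obtain ⟨-, e₁, e₂, he, hF1, hN1, hF2, hN2⟩ := 𝒞.isTateCurve
    exact summand_step (tensorSummand (𝒞.kunneth (𝒞.withCurves X j) 𝒞.curve (m + j) 1)) he hF1 hN1 hF2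
      hN2 r l hy hyF hyN

/-- The weight-monodromy conjecture from the middle cohomology of `X × X × E ^ (2 i + 1)`. -/
theorem isPure_of_central (𝒞 : ProdClass.{u} Ω q) (hq : 1 < q)
    (h : ∀ (n : ℕ) (X : 𝒞.Var n) (i : ℕ), NoInvariants
      (𝒞.H (𝒞.withCurves (𝒞.prod X X) (2 * i + 1)) (n + n + (2 * i + 1))) (n + i + 1)) :
    ∀ (n : ℕ) (X : 𝒞.Var n) (m : ℕ), m ≤ 2 * n → (𝒞.H X m).IsPure m := by
  refine weightMonodromy_of_tate 𝒞.toCohomology hq ?_
  intro n X i hi z hF hN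
  by_contra hz
  obtain ⟨j, rfl⟩ : ∃ j, i = j + 1 := ⟨i - 1, by omega⟩
  obtain ⟨f, p, hpf, hfF, hfN, -, -⟩ := tensorSummand (𝒞.kunneth X X n n)
  have h0 : f z ≠ 0 := by
    intro h0
    apply hz
    rw [← hpf z, h0, map_zero]
  have hF' : F2 (𝒞.H X n) (𝒞.H X n) z = (q : Ω) ^ ((n : ℤ) + j + 1) • z := by
    have h1 : (q : Ω) ^ ((n : ℤ) + j + 1) = (q : Ω) ^ (n + (j + 1)) := by
      rw [← zpow_natCast]
      congr 1
    rw [h1]
    exact hF
  have hN' : (N2 (𝒞.H X n) (𝒞.H X n) ^ (2 * j + 1 + 1)) z = 0 := by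
    have h1 : 2 * j + 1 + 1 = 2 * (j + 1) := by ring
    rw [h1]
    exact hN
  obtain ⟨y, hy, hyF, hyN⟩ := withCurves_aux 𝒞 ((n : ℤ) + j + 1) (𝒞.prod X X) (n + n) (2 * j + 1)
    (z := f z) h0 (by rw [← hfF, hF', map_smul]) (by rw [← summand_pow hfN, hN', map_zero])
    (2 * j + 1) 0 (by omega)
  refine hy (h n X j y hyF ?_)
  simpa using hyN

/-- Invariants and forms. -/
theorem noForms_iff (hq : 1 < q) {W : FN.{u} Ω q} (hmix : W.IsMixed) {n : ℕ} (hB : IsDual W W n) {r : ℤ}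
    (hr : 2 * r = n + 1) : NoForms W (r - 1) ↔ NoInvariants W r := by
  have hqΩ : (q : Ω) ≠ 0 := by
    have : q ≠ 0 := by omega
    exact_mod_cast this
  obtain ⟨B, hB0, hB1, hBF, hBN⟩ := hB
  have hn : (q : Ω) ^ n = (q : Ω) ^ r * (q : Ω) ^ (r - 1) := by
    rw [← zpow_natCast, ← zpow_add₀ hqΩ]
    congr 1
    linarith
  constructor
  · intro h z hF hN
    refine hB0 z fun y => ?_
    have h1 : B z = 0 := by
      refine h (B z) (fun v => ?_) fun v => ?_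
      · have h2 := hBF z v
        rw [hF, map_smul, LinearMap.smul_apply, smul_eq_mul, hn, mul_assoc] at h2
        exact mul_left_cancel₀ (zpow_ne_zero _ hqΩ) h2
      · have h2 := hBN z v
        rw [hN, map_zero, LinearMap.zero_apply] at h2
        exact (neg_eq_zero.1 h2.symm)
    rw [h1, LinearMap.zero_apply]
  · intro h φ hφF hφN
    have hinj : Function.Injective B := by
      rw [injective_iff_map_eq_zero]
      exact fun x hx => hB0 x fun y => by rw [hx, LinearMap.zero_apply]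
    have hsurj : Function.Surjective B :=
      (LinearMap.injective_iff_surjective_of_finrank_eq_finrank
        (by rw [Subspace.dual_finrank_eq])).1 hinj
    obtain ⟨z, rfl⟩ := hsurj φ
    have hFs : Function.Surjective W.F := surjective_F hq hmix
    have h1 : W.F z = (q : Ω) ^ r • z := by
      apply hinj
      ext v
      obtain ⟨y, rfl⟩ := hFs v
      rw [hBF, map_smul, LinearMap.smul_apply, smul_eq_mul, hφF, ← mul_assoc, hn]
    have h2 : W.N z = 0 := by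
      apply hinj
      ext v
      rw [hBN, hφN, neg_zero, map_zero, LinearMap.zero_apply]
    rw [h z h1 h2, map_zero]

/-- **The five equivalent statements.** -/
theorem tfae_central (hq : 1 < q) (𝒞 : ProdClass.{u} Ω q) :
    List.TFAE [
      ∀ (n : ℕ) (X : 𝒞.Var n) (m : ℕ), m ≤ 2 * n → (𝒞.H X m).IsPure m,
      ∀ (n : ℕ) (X : 𝒞.Var n) (m : ℕ) (r : ℤ), m ≤ 2 * n → (m : ℤ) < 2 * r →
        NoInvariants (𝒞.H X m) r,
      ∀ (n : ℕ) (X : 𝒞.Var n) (r : ℤ), 2 * r = n + 1 → NoInvariants (𝒞.H X n) r,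
      ∀ (n : ℕ) (X : 𝒞.Var n) (r : ℤ), 2 * r = n + 1 → NoForms (𝒞.H X n) (r - 1),
      ∀ (n : ℕ) (X : 𝒞.Var n) (i : ℕ), NoInvariants
        (𝒞.H (𝒞.withCurves (𝒞.prod X X) (2 * i + 1)) (n + n + (2 * i + 1))) (n + i + 1)] := by
  tfae_have 1 → 2 := fun h n X m r hm hr => noInvariants_of_isPure hq (h n X m hm) r hr
  tfae_have 2 → 3 := fun h n X r hr => h n X n r (by omega) (by omega)
  tfae_have 3 → 5 := fun h n X i => h _ _ _ (by push_cast; ring)
  tfae_have 5 → 1 := fun h => isPure_of_central 𝒞 hq h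
  tfae_have 3 ↔ 4 := by
    constructor
    · exact fun h n X r hr => (noForms_iff hq (𝒞.mixed X n) (𝒞.dual X) hr).2 (h n X r hr)
    · exact fun h n X r hr => (noForms_iff hq (𝒞.mixed X n) (𝒞.dual X) hr).1 (h n X r hr)
  tfae_finish

end Pool.Agent.X305.LT
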